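import Pool.Agent.H73.TS.Targets

/-! # Superadditivity of the Wills functional for the slab `0 < x 0 < 1` -/

open MeasureTheory Set Metric
open scoped ENNReal

namespace Pool.Agent.H89.TS
open Pool.Agent.H73.TS

private theorem cont0 {n : ℕ} : Continuous (fun x : E (n + 1) => x 0) := by fun_prop

private theorem cvle {n : ℕ} (c : ℝ) : Convex ℝ {x : E (n + 1) | x 0 ≤ c} := by
  intro x hx y hy a b ha hb hab
  simp only [mem_ofPred_eq] at hx hy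
  have h : (a • x + b • y) 0 = a * x 0 + b * y 0 := by simp
  simp only [mem_ofPred_eq, h]
  have h1 := mul_le_mul_of_nonneg_left hx ha
  have h2 := mul_le_mul_of_nonneg_left hy hb
  have h3 : a * c + b * c = c := by rw [← add_mul, hab, one_mul]
  linarith

private theorem cvge {n : ℕ} (c : ℝ) : Convex ℝ {x : E (n + 1) | c ≤ x 0} := by
  intro x hx y hy a b ha hb hab
  simp only [mem_ofPred_eq] at hx hy
  have h : (a • x + b • y) 0 = a * x 0 + b * y 0 := by simp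
  simp only [mem_ofPred_eq, h]
  have h1 := mul_le_mul_of_nonneg_left hx ha
  have h2 := mul_le_mul_of_nonneg_left hy hb
  have h3 : a * c + b * c = c := by rw [← add_mul, hab, one_mul]
  linarith

private theorem flat_sec {n : ℕ} (hFLAT : T_FLAT) {P A : Set (E (n + 1))} {c : ℝ}
    (hP : IsCompact P) (hne : (sec P c).Nonempty) (hA : A = P ∩ {x | x 0 = c}) :
    W A = W (sec P c) := by
  have h1 : A = (fun y => cons c y) '' (sec P c) := by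
    rw [hA]
    ext x
    constructor
    · rintro ⟨hx, hx0⟩
      have hx0' : x 0 = c := hx0
      refine ⟨tl x, ?_, ?_⟩
      · rw [mem_sec, ← hx0', cons_tl]; exact hx
      · show cons c (tl x) = x
        rw [← hx0', cons_tl]
    · rintro ⟨y, hy, rfl⟩
      exact ⟨hy, by simp⟩
  rw [h1]
  refine hFLAT n _ c hne ?_
  refine (hP.image continuous_tl).isBounded.subset ?_
  intro y hy
  exact ⟨cons c y, hy, by simp⟩

theorem sua (hVAL : T_VAL) (hFLAT : T_FLAT) (hKEY : T_KEY) : T_SUA := by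
  intro n Q hn hn7 hQ hcv h0 h1
  obtain ⟨a, haQ, ha⟩ := h0
  obtain ⟨b, hbQ, hb⟩ := h1
  have ha' : a 0 ≤ 0 := ha
  have hb' : 1 ≤ b 0 := hb
  have hiv : ∀ s : ℝ, 0 ≤ s → s ≤ 1 → ∃ z ∈ Q, z 0 = s := by
    intro s hs0 hs1
    have h := hcv.isPreconnected.intermediate_value haQ hbQ
      (cont0 (n := n)).continuousOn (show s ∈ Icc (a 0) (b 0) from ⟨by linarith, by linarith⟩)
    obtain ⟨z, hz, hzs⟩ := h
    exact ⟨z, hz, hzs⟩
  obtain ⟨z0, hz0, hz0'⟩ := hiv 0 le_rfl zero_le_one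
  obtain ⟨z1, hz1, hz1'⟩ := hiv 1 zero_le_one le_rfl
  have hcl0 : IsClosed {x : E (n + 1) | 0 ≤ x 0} := isClosed_le continuous_const cont0
  have hcl1 : IsClosed {x : E (n + 1) | x 0 ≤ 1} := isClosed_le cont0 continuous_const
  have hQ' : IsCompact (Q ∩ {x | 0 ≤ x 0}) := hQ.inter_right hcl0
  have hcv' : Convex ℝ (Q ∩ {x : E (n + 1) | 0 ≤ x 0}) := hcv.inter (cvge 0)
  have hP : IsCompact (Q ∩ {x | 0 ≤ x 0} ∩ {x | x 0 ≤ 1}) := hQ'.inter_right hcl1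
  have hPcv : Convex ℝ (Q ∩ {x : E (n + 1) | 0 ≤ x 0} ∩ {x | x 0 ≤ 1}) := hcv'.inter (cvle 1)
  have hs0 : (sec (Q ∩ {x : E (n + 1) | 0 ≤ x 0} ∩ {x | x 0 ≤ 1}) 0).Nonempty := by
    refine ⟨tl z0, ?_⟩
    rw [mem_sec]
    have h : cons 0 (tl z0) = z0 := by rw [← hz0', cons_tl]
    rw [h]
    exact ⟨⟨hz0, by simp [hz0']⟩, by simp [hz0']⟩
  have hs1 : (sec (Q ∩ {x : E (n + 1) | 0 ≤ x 0} ∩ {x | x 0 ≤ 1}) 1).Nonempty := by
    refine ⟨tl z1, ?_⟩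
    rw [mem_sec]
    have h : cons 1 (tl z1) = z1 := by rw [← hz1', cons_tl]
    rw [h]
    exact ⟨⟨hz1, by simp [hz1']⟩, by simp [hz1']⟩
  have e1 := hVAL n Q 0 hQ hcv ⟨a, haQ, ha⟩ ⟨b, hbQ, by simp only [mem_ofPred_eq]; linarith⟩
  have e2 := hVAL n (Q ∩ {x | 0 ≤ x 0}) 1 hQ' hcv'
    ⟨z0, ⟨hz0, by simp [hz0']⟩, by simp [hz0']⟩
    ⟨b, ⟨hbQ, by simp only [mem_ofPred_eq]; linarith⟩, hb⟩
  have e3 := hKEY n _ hn hn7 hP hPcv hs0 hs1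
  have e4 : Q ∩ {x : E (n + 1) | 0 ≤ x 0} ∩ {x | 1 ≤ x 0} = Q ∩ {x | 1 ≤ x 0} := by
    ext x
    simp only [mem_inter_iff, mem_ofPred_eq]
    constructor
    · rintro ⟨⟨h1, _⟩, h3⟩; exact ⟨h1, h3⟩
    · rintro ⟨h1, h3⟩; exact ⟨⟨h1, by linarith⟩, h3⟩
  have e5 : W (Q ∩ {x : E (n + 1) | x 0 = 0}) =
      W (sec (Q ∩ {x : E (n + 1) | 0 ≤ x 0} ∩ {x | x 0 ≤ 1}) 0) := by
    refine flat_sec hFLAT hP hs0 ?_
    ext x
    simp only [mem_inter_iff, mem_ofPred_eq]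
    constructor
    · rintro ⟨h1, h3⟩; exact ⟨⟨⟨h1, h3.ge⟩, by linarith⟩, h3⟩
    · rintro ⟨⟨⟨h1, _⟩, _⟩, h3⟩; exact ⟨h1, h3⟩
  have e6 : W (Q ∩ {x : E (n + 1) | 0 ≤ x 0} ∩ {x | x 0 = 1}) =
      W (sec (Q ∩ {x : E (n + 1) | 0 ≤ x 0} ∩ {x | x 0 ≤ 1}) 1) := by
    refine flat_sec hFLAT hP hs1 ?_
    ext x
    simp only [mem_inter_iff, mem_ofPred_eq]
    constructor
    · rintro ⟨⟨h1, h2⟩, h3⟩; exact ⟨⟨⟨h1, h2⟩, h3.le⟩, h3⟩
    · rintro ⟨⟨⟨h1, h2⟩, _⟩, h3⟩; exact ⟨⟨h1, h2⟩, h3⟩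
  rw [e4, e6] at e2
  rw [e5] at e1
  linarith

end Pool.Agent.H89.TS
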